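import Mathlib

set_option autoImplicit false

namespace Pool.Agent.H.MP_f387d3_mp

open Finset

/-- right-moving and left-moving amplitudes at time n+1 -/
noncomputable def RL : ℕ → ℤ → ℝ × ℝ
  | 0, y => (if y = 1 then 1 else 0, 0)
  | n+1, y => ((RL n (y-1)).1 - (RL n (y-1)).2, (RL n (y+1)).2 + (RL n (y+1)).1)

noncomputable def R (n : ℕ) (y : ℤ) : ℝ := (RL n y).1
noncomputable def L (n : ℕ) (y : ℤ) : ℝ := (RL n y).2

lemma R0 (y : ℤ) : R 0 y = if y = 1 then 1 else 0 := rfl
lemma L0 (y : ℤ) : L 0 y = 0 := rfl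
lemma Rs (n : ℕ) (y : ℤ) : R (n+1) y = R n (y-1) - L n (y-1) := rfl
lemma Ls (n : ℕ) (y : ℤ) : L (n+1) y = L n (y+1) + R n (y+1) := rfl

def pos {n : ℕ} (s : Fin n → Bool) : ℤ := ∑ i, (if s i then (1:ℤ) else -1)
def turns {n : ℕ} (s : Fin (n+1) → Bool) : ℕ :=
  (Finset.univ.filter (fun i : Fin n => s i.castSucc ≠ s i.succ)).card

noncomputable def Z (n : ℕ) (y : ℤ) (e : Bool) : ℂ :=
  ∑ s : Fin (n+1) → Bool, if (s 0 = true ∧ pos s = y) ∧ s (Fin.last n) = e then (-Complex.I) ^ turns s else 0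

lemma pos_snoc {n : ℕ} (s : Fin n → Bool) (e : Bool) :
    pos (Fin.snoc s e : Fin (n+1) → Bool) = pos s + if e then 1 else -1 := by
  unfold pos
  rw [Fin.sum_univ_castSucc]
  simp

lemma turns_snoc {n : ℕ} (s : Fin (n+1) → Bool) (e : Bool) :
    turns (Fin.snoc s e : Fin (n+2) → Bool) = turns s + if s (Fin.last n) ≠ e then 1 else 0 := by
  unfold turns
  rw [Finset.card_filter, Finset.card_filter, Fin.sum_univ_castSucc]
  congr 1
  · refine Finset.sum_congr rfl fun j _ => ?_
    rw [Fin.succ_castSucc, Fin.snoc_castSucc, Fin.snoc_castSucc]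
  · rw [Fin.succ_last]
    simp

lemma Z_succ (n : ℕ) (y : ℤ) (e : Bool) :
    Z (n+1) y e = Z n (y - if e then 1 else -1) e
      + (-Complex.I) * Z n (y - if e then 1 else -1) (!e) := by
  unfold Z
  rw [← Fintype.sum_equiv (Fin.snocEquiv (fun _ : Fin (n+2) => Bool))
    (fun p => if (p.2 0 = true ∧ pos p.2 + (if p.1 then 1 else -1) = y) ∧ p.1 = e then
      (-Complex.I) ^ (turns p.2 + if p.2 (Fin.last n) ≠ p.1 then 1 else 0) else 0) _
    (by
      rintro ⟨b, s⟩
      have h0 : (Fin.snoc s b : Fin (n+2) → Bool) 0 = s 0 := by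
        have : (0 : Fin (n+2)) = Fin.castSucc (0 : Fin (n+1)) := rfl
        rw [this, Fin.snoc_castSucc]
      simp only [Fin.snocEquiv, Equiv.coe_fn_mk]
      rw [show (fun i => (Fin.snoc s b : Fin (n+2) → Bool) i) = Fin.snoc s b from rfl]
      rw [pos_snoc, turns_snoc, h0, Fin.snoc_last])]
  rw [Fintype.sum_prod_type_right, Finset.mul_sum, ← Finset.sum_add_distrib]
  refine Finset.sum_congr rfl fun s _ => ?_
  rw [Fintype.sum_bool]
  by_cases h1 : s 0 = true ∧ pos s = y - (if e then 1 else -1)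
  · obtain ⟨h1, h2⟩ := h1
    cases e <;> cases h : s (Fin.last n) <;> simp [h1, h2, h, pow_succ, mul_comm]
  · have h2 : ¬ (s 0 = true ∧ pos s + (if e then 1 else -1) = y) := by
      rintro ⟨a, b⟩; exact h1 ⟨a, by linarith⟩
    cases e
    · simp only [Bool.false_eq_true, if_false] at h1 h2 ⊢
      simp only [h1, h2, false_and, if_false, Bool.true_eq_false, and_false]
      simp
    · simp only [if_true] at h1 h2 ⊢
      simp only [h1, h2, false_and, if_false, Bool.false_eq_true, and_false]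
      simp

lemma Z_eq (n : ℕ) : ∀ y, Z n y true = (R n y : ℂ) ∧ Z n y false = -Complex.I * (L n y : ℂ) := by
  induction n with
  | zero =>
    intro y
    unfold Z
    rw [← Fintype.sum_equiv (Equiv.funUnique (Fin 1) Bool).symm
      (fun b => if (b = true ∧ (if b then (1:ℤ) else -1) = y) ∧ b = true then (1:ℂ) else 0) _
      (by intro b; simp [pos, turns]),
      ← Fintype.sum_equiv (Equiv.funUnique (Fin 1) Bool).symm
      (fun b => if (b = true ∧ (if b then (1:ℤ) else -1) = y) ∧ b = false then (1:ℂ) else 0) _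
      (by intro b; simp [pos, turns])]
    by_cases h : y = 1
    · simp [R0, L0, h]
    · have : ¬ (1 = y) := fun h' => h h'.symm
      simp [R0, L0, h, this]
  | succ n ih =>
    intro y
    rw [Z_succ, Z_succ, Rs, Ls]
    simp only [if_true, Bool.not_true, Bool.not_false, Bool.false_eq_true, if_false, sub_neg_eq_add]
    rw [(ih _).1, (ih _).2, (ih _).1, (ih _).2]
    push_cast
    constructor
    · linear_combination (L n (y-1) : ℂ) * Complex.I_mul_I
    · ring

lemma amp (n : ℕ) (y : ℤ) :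
    ‖∑ s ∈ Finset.univ.filter
              (fun s : Fin (n+1) → Bool =>
                s 0 = true ∧ ∑ i, (if s i then (1:ℤ) else -1) = y),
            (-Complex.I) ^ ((Finset.univ.filter
              (fun i : Fin n => s i.castSucc ≠ s i.succ)).card)‖ ^ 2 = R n y ^ 2 + L n y ^ 2 := by
  have h : ∑ s ∈ Finset.univ.filter
              (fun s : Fin (n+1) → Bool =>
                s 0 = true ∧ ∑ i, (if s i then (1:ℤ) else -1) = y),
            (-Complex.I) ^ ((Finset.univ.filter
              (fun i : Fin n => s i.castSucc ≠ s i.succ)).card) = Z n y true + Z n y false := by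
    unfold Z
    rw [Finset.sum_filter, ← Finset.sum_add_distrib]
    refine Finset.sum_congr rfl fun s _ => ?_
    change (if s 0 = true ∧ pos s = y then (-Complex.I) ^ turns s else 0) = _
    by_cases h1 : s 0 = true ∧ pos s = y
    · cases h : s (Fin.last n) <;> simp [h1]
    · simp [h1]
  rw [h, (Z_eq n y).1, (Z_eq n y).2, Complex.sq_norm, Complex.normSq_apply]
  simp
  ring

lemma mixed (n : ℕ) : ∀ y : ℤ,
    (((n:ℝ)+1+y) * (R n (y+2) + L n (y+2)) - ((n:ℝ)+1-y) * (R n y + L n y) = 4 * y * L n y) ∧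
    (((n:ℝ)+1-y-2) * L n (y+2) - ((n:ℝ)+1+y) * L n y = -2 * (1+y) * (R n (y+2) + L n (y+2))) := by
  induction n with
  | zero =>
    intro y
    simp only [R0, L0]
    by_cases h : y = 1
    · subst h; norm_num
    · by_cases h2 : y + 2 = 1
      · have : y = -1 := by omega
        subst this; norm_num
      · simp [h, h2]
  | succ n ih =>
    intro y
    have a1 := (ih (y+1)).1
    have a2 := (ih (y-1)).1
    have a3 := (ih (y-1)).2
    have e1 : y + 2 - 1 = y + 1 := by ring
    have e2 : y + 2 + 1 = y + 1 + 2 := by ring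
    have e3 : y - 1 + 2 = y + 1 := by ring
    simp only [Rs, Ls, e1, e2, e3] at *
    push_cast at *
    constructor
    · linear_combination a1 + a2 - 2 * a3
    · linear_combination a1

lemma m1 (n : ℕ) (y : ℤ) :
    ((n:ℝ)+1+y) * (L n y - L n (y+2)) = 2 * (1+y) * R n (y+2) := by
  linear_combination -(mixed n y).2

lemma m2 (n : ℕ) (y : ℤ) :
    ((n:ℝ)+1-y-2) * R n (y+2) - ((n:ℝ)+1-y) * R n y = 2 * y * L n y := by
  linear_combination (mixed n y).1 - (mixed n y).2

lemma van (n : ℕ) : ∀ y : ℤ, ((n:ℤ) + 1 < y ∨ y < -((n:ℤ)+1) ∨ (y + n) % 2 = 0) → R n y = 0 ∧ L n y = 0 := by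
  induction n with
  | zero =>
    intro y h
    have : y ≠ 1 := by omega
    simp [R0, L0, this]
  | succ n ih =>
    intro y h
    have h1 := ih (y-1) (by push_cast at h; omega)
    have h2 := ih (y+1) (by push_cast at h; omega)
    rw [Rs, Ls, h1.1, h1.2, h2.1, h2.2]; simp

lemma edge (n : ℕ) : R n (n+1) = 1 ∧ L n (n+1) = 0 := by
  induction n with
  | zero => simp [R0, L0]
  | succ n ih =>
    have h2 := van n ((n:ℤ)+1+1+1) (by omega)
    rw [Rs, Ls]
    push_cast
    rw [show (n:ℤ)+1+1-1 = n+1 by ring, ih.1, ih.2, h2.1, h2.2]; simp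

lemma ric (β A B E ρ : ℕ → ℝ) (K : ℕ) (h00 : 0 ≤ β 0) (h1 : 0 < β 1) (h0 : β 0 ≤ β 1) (ρ0 : ρ 0 = 0)
    (hrec : ∀ k < K, A k * (β (k+2) - β (k+1)) = B k * (β (k+1) - β k) + E k * β (k+1))
    (hA : ∀ k < K, 0 < A k) (hB : ∀ k < K, 0 ≤ B k) (hρ : ∀ k, 0 ≤ ρ k)
    (hs : ∀ k < K, A k * ρ (k+1) ≤ B k * (ρ k - ρ k ^ 2) + E k) :
    ∀ k ≤ K, 0 ≤ β k ∧ 0 < β (k+1) ∧ ρ k * β k ≤ β (k+1) - β k := by
  intro k
  induction k with
  | zero => intro _; exact ⟨h00, h1, by rw [ρ0]; linarith⟩
  | succ k ih =>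
    intro hk
    obtain ⟨i0, i1, i2⟩ := ih (by omega)
    have hk' : k < K := by omega
    have r := hρ k
    have d1 : (ρ k - ρ k ^ 2) * β (k+1) ≤ β (k+1) - β k := by
      have : ((ρ k - ρ k ^ 2) * β (k+1)) * (1 + ρ k) ≤ (β (k+1) - β k) * (1 + ρ k) := by
        have : 0 ≤ ρ k ^ 3 * β (k+1) := by positivity
        nlinarith
      exact le_of_mul_le_mul_right this (by linarith)
    have d2 : A k * (ρ (k+1) * β (k+1)) ≤ A k * (β (k+2) - β (k+1)) := by
      rw [hrec k hk']
      have a := mul_le_mul_of_nonneg_right (hs k hk') i1.le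
      have b := mul_le_mul_of_nonneg_left d1 (hB k hk')
      nlinarith
    have d3 := le_of_mul_le_mul_left d2 (hA k hk')
    have : 0 ≤ ρ (k+1) * β (k+1) := mul_nonneg (hρ _) i1.le
    exact ⟨i1.le, by linarith, d3⟩

noncomputable def mm (C u : ℝ) : ℝ := max 0 ((8*C+11)^2 - (u - (7*C+10))^2)

lemma est (C t u A B E : ℝ) (hC : 0 ≤ C) (ht : 8 * (8*C+11)^2 + (8*C+11)^4 ≤ t)
    (hA : 0 < A) (hA1 : A ≤ t^3) (hB : 0 ≤ B) (hB1 : B ≤ t^3) (hAB : A - B ≤ 8 * t^2)
    (hE : 8 * t^2 * (u-1) ≤ E) (hu : -C ≤ u) (hA2 : u ≤ 7*C+10 → t^3/4 ≤ A) :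
    A * (mm C u / t) ≤ B * (mm C (u+2) / t - (mm C (u+2) / t)^2) + E := by
  set Lq := (8*C+11)^2 with hLq
  have hL : 121 ≤ Lq := by rw [hLq]; nlinarith
  have ht' : 8 * Lq + Lq^2 ≤ t := by rw [hLq]; nlinarith
  have t0 : 0 < t := by nlinarith
  have m0 : 0 ≤ mm C (u+2) := le_max_left _ _
  have m1 : mm C (u+2) ≤ Lq := max_le (by linarith) (by nlinarith [sq_nonneg (u + 2 - (7*C+10))])
  have m2 : Lq - (u + 2 - (7*C+10))^2 ≤ mm C (u+2) := le_max_right _ _
  set m' := mm C (u+2)
  have key : A * mm C u * t ≤ B * (m' * t - m'^2) + E * t^2 := by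
    rcases le_total (Lq - (u - (7*C+10))^2) 0 with h | h
    · have : mm C u = 0 := max_eq_left h
      rw [this]
      have hu1 : 1 ≤ u := by
        by_contra hh
        push Not at hh
        have : (u - (7*C+10))^2 < Lq := by
          rw [hLq]; apply sq_lt_sq' <;> linarith
        linarith
      have e1 : 0 ≤ E := le_trans (by have := sq_nonneg t; nlinarith) hE
      have e2 : 0 ≤ m' * t - m'^2 := by nlinarith
      have e3 := mul_nonneg hB e2
      have e4 := mul_nonneg e1 (sq_nonneg t)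
      linarith
    · have : mm C u = Lq - (u - (7*C+10))^2 := max_eq_right h
      rw [this]
      have s1 : A * t * (Lq - (u - (7*C+10))^2 - m') ≤ A * t * (4 * (u - (7*C+10) + 1)) :=
        mul_le_mul_of_nonneg_left (by nlinarith) (by positivity)
      have s2 : (A - B) * (t * m') ≤ 8 * t^2 * (t * Lq) := by
        have a := mul_le_mul_of_nonneg_right hAB (by positivity : 0 ≤ t * m')
        have b : 8 * t^2 * (t * m') ≤ 8 * t^2 * (t * Lq) := by gcongr
        linarith
      have s3 : B * m'^2 ≤ t^3 * Lq^2 := by gcongr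
      have s4 : t^3 * (8 * Lq + Lq^2) ≤ t^3 * t := by gcongr
      have s5 : 8 * t^2 * (u-1) * t^2 ≤ E * t^2 := by gcongr
      have t4 : 0 < t^4 := by positivity
      have s6 : A * t * (4 * (u - (7*C+10) + 1)) + t^4 ≤ 8 * t^2 * (u-1) * t^2 := by
        rcases le_total 0 (u - (7*C+10) + 1) with h1 | h1
        · have : A * (t * (4 * (u - (7*C+10) + 1))) ≤ t^3 * (t * (4 * (u - (7*C+10) + 1))) := by gcongr
          have b : t^4 * (4 * (u - (7*C+10) + 1) + 1) ≤ t^4 * (8 * (u-1)) :=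
            mul_le_mul_of_nonneg_left (by linarith) t4.le
          nlinarith
        · have a := hA2 (by linarith)
          have : t^3/4 * (t * (4 * -(u - (7*C+10) + 1))) ≤ A * (t * (4 * -(u - (7*C+10) + 1))) :=
            mul_le_mul_of_nonneg_right a (by have : 0 ≤ -(u - (7*C+10) + 1) := by linarith
                                             positivity)
          have b : t^4 * ((u - (7*C+10) + 1) + 1) ≤ t^4 * (8 * (u-1)) :=
            mul_le_mul_of_nonneg_left (by linarith) t4.le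
          nlinarith
      nlinarith
  have e1 : A * (mm C u / t) = (A * mm C u * t) / t^2 := by field_simp
  have e2 : B * (m' / t - (m' / t)^2) + E = (B * (m' * t - m'^2) + E * t^2) / t^2 := by field_simp
  rw [e1, e2]
  gcongr

end Pool.Agent.H.MP_f387d3_mp
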