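import Pool.Agent.H.MP_f387d3_mp.A

set_option autoImplicit false

namespace Pool.Agent.H.MP_f387d3_mp

lemma mono (C T σ : ℝ) (K : ℕ) (β : ℕ → ℝ) (A B E : ℝ → ℝ) (hC : 0 ≤ C)
    (ht : 8 * (8*C+11)^2 + (8*C+11)^4 ≤ T) (hσ1 : 0.7 * T ≤ σ) (hσ2 : σ ≤ 0.71 * T)
    (hx : |T - 2 * K - σ| ≤ C) (h00 : 0 ≤ β 0) (h1 : 0 < β 1) (h0 : β 0 ≤ β 1)
    (hrec : ∀ k : ℕ, A (T-2-2*k) * (β (k+2) - β (k+1))
      = B (T-2-2*k) * (β (k+1) - β k) + E (T-2-2*k) * β (k+1))
    (hb : ∀ x, 0.65 * T ≤ x → x ≤ T - 2 → 0 < A x ∧ A x ≤ T^3 ∧ 0 ≤ B x ∧ B x ≤ T^3 ∧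
      A x - B x ≤ 8 * T^2 ∧ 8 * T^2 * (x-σ-1) ≤ E x ∧ (x ≤ 0.75 * T → T^3/4 ≤ A x)) :
    0 < β K ∧ β K < β (K+1) := by
  have hT : 704 * C + 968 ≤ T := by
    have : 0 ≤ (8*C+11)^4 := by positivity
    nlinarith
  obtain ⟨x1, x2⟩ := abs_le.1 hx
  have T0 : 0 < T := by linarith
  have rng : ∀ k < K, 0.65 * T ≤ T-2-2*(k:ℝ) ∧ T-2-2*(k:ℝ) ≤ T - 2 ∧ -C ≤ T-2-2*(k:ℝ) - σ := by
    intro k hk
    have : (k:ℝ) + 1 ≤ K := by exact_mod_cast hk
    have : (0:ℝ) ≤ k := Nat.cast_nonneg k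
    refine ⟨by linarith, by linarith, by linarith⟩
  have main := ric β (fun k => A (T-2-2*k)) (fun k => B (T-2-2*k)) (fun k => E (T-2-2*k))
    (fun k => mm C (T - 2*k - σ) / T) K h00 h1 h0
    (by
      have : mm C (T - 2 * ((0:ℕ):ℝ) - σ) = 0 := by
        apply max_eq_left
        have : (8*C+11)^2 ≤ (T - 2 * ((0:ℕ):ℝ) - σ - (7*C+10))^2 := by
          apply pow_le_pow_left₀ (by linarith)
          push_cast; linarith
        linarith
      simp only [this, zero_div])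
    (fun k _ => hrec k)
    (fun k hk => (hb _ (rng k hk).1 (rng k hk).2.1).1)
    (fun k hk => (hb _ (rng k hk).1 (rng k hk).2.1).2.2.1)
    (fun k => div_nonneg (le_max_left _ _) T0.le)
    (by
      intro k hk
      obtain ⟨r1, r2, r3⟩ := rng k hk
      obtain ⟨b1, b2, b3, b4, b5, b6, b7⟩ := hb _ r1 r2
      have := est C T (T-2-2*k-σ) _ _ _ hC ht b1 b2 b3 b4 b5 b6 r3 (fun h => b7 (by linarith))
      have e1 : T - 2 * ((k+1:ℕ):ℝ) - σ = T-2-2*k-σ := by push_cast; ring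
      have e2 : T - 2 * (k:ℝ) - σ = T-2-2*k-σ+2 := by ring
      simp only [e1, e2]
      exact this)
  have hK : 1 ≤ K := by
    by_contra h
    have : K = 0 := by omega
    subst this
    push_cast at x2
    linarith
  obtain ⟨k, rfl⟩ : ∃ k, K = k + 1 := ⟨K - 1, by omega⟩
  have p1 := (main k (by omega)).2.1
  have p2 := (main (k+1) le_rfl).2.2
  have p3 : 0 < mm C (T - 2 * ((k+1:ℕ):ℝ) - σ) / T := by
    apply div_pos _ T0
    apply lt_max_of_lt_right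
    have : (T - 2 * ((k+1:ℕ):ℝ) - σ - (7*C+10))^2 < (8*C+11)^2 := by
      apply sq_lt_sq' <;> linarith
    linarith
  have := mul_pos p3 p1
  exact ⟨p1, by linarith⟩

lemma recL (n : ℕ) (y : ℤ) :
    ((y:ℝ)+1) * ((n:ℝ)^2 - (y-1)^2) * L n (y-2) + ((y:ℝ)-1) * ((n:ℝ)^2 - (y+1)^2) * L n (y+2)
      + 2 * y * (3 * ((y:ℝ)^2 - 1) - n^2) * L n y = 0 := by
  have a := m1 n y
  have b := m1 n (y-2)
  have c := m2 n y
  rw [show y - 2 + 2 = y by ring] at b
  push_cast at *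
  linear_combination -((y:ℝ)-1) * ((n:ℝ)-1-y) * a + ((y:ℝ)+1) * ((n:ℝ)+1-y) * b
    - 2 * ((y:ℝ)-1) * (y+1) * c

lemma recR (n : ℕ) (y : ℤ) :
    (y:ℝ) * (((n:ℝ)+1)^2 - (y-2)^2) * R n (y-2) + ((y:ℝ)-2) * (((n:ℝ)-1)^2 - y^2) * R n (y+2)
      + (4 * y * (y-1) * (y-2) - ((n:ℝ)+y-1) * (n+1-y) * (2*y-2)) * R n y = 0 := by
  have a := m1 n (y-2)
  have b := m2 n (y-2)
  have c := m2 n y
  rw [show y - 2 + 2 = y by ring] at a b
  push_cast at *
  linear_combination -2 * (y:ℝ) * (y-2) * a - ((n:ℝ)+y-1) * y * b + ((n:ℝ)+y-1) * (y-2) * c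

lemma incr (C : ℝ) (hC : 0 ≤ C) (n : ℕ) (ht : 8 * (8*C+11)^2 + (8*C+11)^4 ≤ (n:ℝ)+1) (K : ℕ)
    (hx : |((n:ℝ)+1) - 2 * K - ((n:ℝ)+1) / Real.sqrt 2| ≤ C) :
    R n (n+1-2*K) ^ 2 + L n (n+1-2*K) ^ 2 < R n (n+1-2*(K+1)) ^ 2 + L n (n+1-2*(K+1)) ^ 2 := by
  set T : ℝ := (n:ℝ) + 1 with hTd
  set σ := T / Real.sqrt 2 with hσ
  have hT : 968 ≤ T := by
    have : 0 ≤ (8*C+11)^4 := by positivity
    nlinarith
  have s0 : 0 < Real.sqrt 2 := by positivity
  have s2 : Real.sqrt 2 ^ 2 = 2 := Real.sq_sqrt (by norm_num)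
  have σ2 : 2 * σ^2 = T^2 := by rw [hσ, div_pow, s2]; ring
  have σ0 : 0 < σ := by positivity
  have hσ1 : 0.7 * T ≤ σ := by
    exact (abs_le_of_sq_le_sq' (by nlinarith) σ0.le).2
  have hσ2 : σ ≤ 0.71 * T := by
    exact (abs_le_of_sq_le_sq' (by nlinarith) (by linarith)).2
  have hn : (n:ℝ) = T - 1 := by rw [hTd]; ring
  have eL : L n (n+1-2) = 1 := by
    have := m1 n (n+1-2)
    rw [show (n:ℤ)+1-2+2 = n+1 by ring, (edge n).1, (edge n).2] at this
    push_cast at this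
    have h : (n:ℝ) ≠ 0 := by rw [hn]; linarith
    apply mul_left_cancel₀ h
    linarith
  have eR : R n (n+1-2) = -(T-2) := by
    have := m2 n (n+1-2)
    rw [show (n:ℤ)+1-2+2 = n+1 by ring, (edge n).1, eL] at this
    push_cast at this
    linarith
  have h1 := mono C T σ K (fun k => -(-1)^k * L n (n+1-2*k))
    (fun x => (x+1) * ((T-1)^2 - (x-1)^2)) (fun x => (x-1) * ((T-1)^2 - (x+1)^2))
    (fun x => 4 * x * (2 * x^2 - 2 - (T-1)^2)) hC ht hσ1 hσ2 hx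
    (by simp [(edge n).2]) (by simp [eL]) (by simp [(edge n).2, eL])
    (by
      intro k
      have := recL n (n+1-2*(k+1))
      rw [show (n:ℤ)+1-2*(k+1)-2 = n+1-2*((k+2:ℕ):ℤ) by push_cast; ring,
        show (n:ℤ)+1-2*(k+1)+2 = n+1-2*k by ring] at this
      simp only [pow_succ]
      push_cast at this ⊢
      rw [hn] at this
      linear_combination -(-1:ℝ)^k * this)
    (by
      intro x x1 x2
      have x0 : 0 < x := by linarith
      refine ⟨mul_pos (by linarith) (by nlinarith), ?_, mul_nonneg (by linarith) (by nlinarith),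
        ?_, by nlinarith, ?_, fun x3 => ?_⟩
      · calc _ ≤ T * T^2 := mul_le_mul (by linarith) (by nlinarith) (by nlinarith) (by linarith)
          _ = _ := by ring
      · calc _ ≤ T * T^2 := mul_le_mul (by linarith) (by nlinarith) (by nlinarith) (by linarith)
          _ = _ := by ring
      · have e : 4 * x * (2 * x^2 - 2 - (T-1)^2) - 8 * T^2 * (x-σ-1)
            = 8 * (x-σ)^2 * (x + 2*σ) + 4 * x * (2*T - 3) + 8 * T^2 := by
          linear_combination (12 * x - 8 * σ) * σ2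
        have : 0 ≤ 8 * (x-σ)^2 * (x + 2*σ) + 4 * x * (2*T - 3) + 8 * T^2 := by
          have : 0 ≤ 2*T - 3 := by linarith
          positivity
        linarith
      · calc T^3/4 ≤ (0.65 * T) * (0.4 * T^2) := by
              have : 0 ≤ T^3 := by positivity
              nlinarith
          _ ≤ _ := mul_le_mul (by linarith) (by nlinarith) (by positivity) (by linarith))
  have h2 := mono C T σ K (fun k => (-1)^k * R n (n+1-2*k))
    (fun x => x * (T^2 - (x-2)^2)) (fun x => (x-2) * ((T-2)^2 - x^2))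
    (fun x => 4 * ((x-1) * (2 * (x-1)^2 - (T-1)^2 - 1) - (T+x-2))) hC ht hσ1 hσ2 hx
    (by simp [(edge n).1]) (by simp [eR]; linarith) (by simp [(edge n).1, eR]; linarith)
    (by
      intro k
      have := recR n (n+1-2*(k+1))
      rw [show (n:ℤ)+1-2*(k+1)-2 = n+1-2*((k+2:ℕ):ℤ) by push_cast; ring,
        show (n:ℤ)+1-2*(k+1)+2 = n+1-2*k by ring] at this
      simp only [pow_succ]
      push_cast at this ⊢
      rw [hn] at this
      linear_combination (-1:ℝ)^k * this)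
    (by
      intro x x1 x2
      have x0 : 0 < x := by linarith
      refine ⟨mul_pos (by linarith) (by nlinarith), ?_, mul_nonneg (by linarith) (by nlinarith),
        ?_, by nlinarith, ?_, fun x3 => ?_⟩
      · calc _ ≤ T * T^2 := mul_le_mul (by linarith) (by nlinarith) (by nlinarith) (by linarith)
          _ = _ := by ring
      · calc _ ≤ T * T^2 := mul_le_mul (by linarith) (by nlinarith) (by nlinarith) (by linarith)
          _ = _ := by ring
      · have e : 4 * ((x-1) * (2 * (x-1)^2 - (T-1)^2 - 1) - (T+x-2)) - 8 * T^2 * (x-σ-1)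
            = 8 * (x-1-σ)^2 * (x - 1 + 2*σ) + 4 * ((x-1) * (2*T - 3) - (T-1)) := by
          linear_combination (12 * (x-1) - 8 * σ) * σ2
        have : 0 ≤ 8 * (x-1-σ)^2 * (x - 1 + 2*σ) := by
          have : 0 ≤ x - 1 + 2*σ := by linarith
          positivity
        have : 0 ≤ (x-1) * (2*T - 3) - (T-1) := by nlinarith
        linarith
      · calc T^3/4 ≤ (0.65 * T) * (0.4 * T^2) := by
              have : 0 ≤ T^3 := by positivity
              nlinarith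
          _ ≤ _ := mul_le_mul (by linarith) (by nlinarith) (by positivity) (by linarith))
  have q1 := pow_lt_pow_left₀ h1.2 h1.1.le two_ne_zero
  have q2 := pow_lt_pow_left₀ h2.2 h2.1.le two_ne_zero
  have sq : ∀ k : ℕ, ((-1:ℝ)^k)^2 = 1 := fun k => by rw [← pow_mul, mul_comm, pow_mul]; simp
  simp only [mul_pow, neg_sq, sq, one_mul] at q1 q2
  push_cast at q1 q2
  linarith

theorem main : ¬ ∃ C : ℝ, ∀ n : ℕ, ∀ x : ℤ,
    (∀ y : ℤ, R n y ^ 2 + L n y ^ 2 ≤ R n x ^ 2 + L n x ^ 2) →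
      |(x:ℝ) - ((n:ℝ) + 1) / Real.sqrt 2| ≤ C := by
  rintro ⟨C0, h⟩
  set C := max C0 0
  obtain ⟨n, hn⟩ := exists_nat_ge (8 * (8*C+11)^2 + (8*C+11)^4)
  obtain ⟨x, -, hx⟩ := Finset.exists_max_image (Finset.Icc (-((n:ℤ)+1)) (n+1))
    (fun y => R n y ^ 2 + L n y ^ 2) ⟨0, by simp; omega⟩
  have hmax : ∀ y : ℤ, R n y ^ 2 + L n y ^ 2 ≤ R n x ^ 2 + L n x ^ 2 := by
    intro y
    by_cases hy : y ∈ Finset.Icc (-((n:ℤ)+1)) (n+1)
    · exact hx y hy
    · have := van n y (by rw [Finset.mem_Icc] at hy; omega)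
      rw [this.1, this.2]; nlinarith [sq_nonneg (R n x), sq_nonneg (L n x)]
  have hpos : ¬ ((n:ℤ) + 1 < x ∨ x < -((n:ℤ)+1) ∨ (x + n) % 2 = 0) := by
    intro hh
    have a := van n x hh
    have b := hmax (n+1)
    rw [a.1, a.2, (edge n).1, (edge n).2] at b
    norm_num at b
  obtain ⟨K, hK⟩ : ∃ K : ℕ, x = n + 1 - 2 * K := ⟨((n + 1 - x) / 2).toNat, by omega⟩
  have h1 := (h n x hmax).trans (le_max_left C0 0)
  have h2 := incr C (le_max_right _ _) n (by linarith) K (by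
    rw [hK] at h1; push_cast at h1; exact h1)
  have h3 := hmax (n+1-2*(K+1))
  rw [hK] at h3
  linarith

end Pool.Agent.H.MP_f387d3_mp
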